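import Pool.Agent.helper86.NF.SpecC

set_option autoImplicit false

open Complex MeasureTheory

namespace Pool.Agent.NF

open Pool.Agent.helper84.DM Pool.Agent.helper78.ED Pool.Agent.DH Pool.Agent.ZD

theorem NBE : NBE_stmt := by
  intro s b w hs1 hs2 hw hb1 hb2
  have hD : (0 : ℝ) < 1 + 3 * s := by linarith
  obtain ⟨u, hu⟩ : ∃ u : ℝ, u = 7 / (3 * (1 + 3 * s)) := ⟨_, rfl⟩
  rw [← hu] at hb1
  have hus : u * s = (7 - 3 * u) / 9 := by
    have h1 : u * (3 * (1 + 3 * s)) = 7 := by
      rw [hu]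
      field_simp
    linarith
  have hwu : w = 4 * u - 7 / 3 := by
    rw [hw, hu]
    field_simp
    ring
  have hu1 : 28 / 39 ≤ u := by
    rw [hu, div_le_div_iff₀ (by norm_num) (by linarith)]
    linarith
  have hu2 : u ≤ 49 / 66 := by
    rw [hu, div_le_div_iff₀ (by linarith) (by norm_num)]
    linarith
  have hu0 : 0 < u := by linarith
  have hd : 0 ≤ b - u := by linarith
  have hP1 : 0 ≤ (b - u) * (s - 5 / 7) := mul_nonneg hd (by linarith)
  have hquad : 0 ≤ (u - 28 / 39) * (49 / 66 - u) := mul_nonneg (by linarith) (by linarith)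
  have hbs : b * s = (7 - 3 * u) / 9 + (b - u) * s := by
    rw [← hus]
    ring
  -- the first inequality
  have h0 : 0 ≤ 2 + 3 * b - 3 / 2 * w - 6 * (b * s) := by
    have h1 : 0 ≤ (39 / 50 - b) * (6 * s - 3) := mul_nonneg (by linarith) (by linarith)
    have h2 : 0 ≤ 39 / 50 * (3 - 6 * s) + 2 - 3 / 2 * w := by
      have h3 : u * 0 ≤ u * (39 / 50 * (3 - 6 * s) + 2 - 3 / 2 * w) := by
        have h4 : u * (39 / 50 * (3 - 6 * s) + 2 - 3 / 2 * w) =
            39 / 50 * (3 * u - 6 * (u * s)) + 2 * u - 3 / 2 * (u * w) := by ring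
        rw [h4, hus, hwu]
        nlinarith
      exact le_of_mul_le_mul_left h3 hu0
    nlinarith
  -- the sixth inequality
  have h6 : 11 / 2 * b - 15 / 2 * (b * s) + 1 ≤ 7 / 4 * w := by
    rcases le_total (11 - 15 * s) 0 with h | h
    · have h1 : 0 ≤ (b - u) * (15 * s - 11) := mul_nonneg hd (by linarith)
      rw [hbs, hwu]
      nlinarith
    · have h1 : 0 ≤ (39 / 50 - b) * (11 - 15 * s) := mul_nonneg (by linarith) h
      have h2 : 39 / 50 * (11 / 2 - 15 / 2 * s) + 1 ≤ 7 / 4 * w := by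
        have h3 : u * (39 / 50 * (11 / 2 - 15 / 2 * s) + 1) ≤ u * (7 / 4 * w) := by
          have h4 : u * (39 / 50 * (11 / 2 - 15 / 2 * s) + 1) =
              39 / 50 * (11 / 2 * u - 15 / 2 * (u * s)) + u := by ring
          have h5 : u * (7 / 4 * w) = 7 / 4 * (u * w) := by ring
          rw [h4, h5, hus, hwu]
          nlinarith
        exact le_of_mul_le_mul_left h3 hu0
      nlinarith
  have hsg : sg w = 3 / 2 * w + 1 / 3 := by
    unfold sg
    exact max_eq_right (by linarith)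
  refine ⟨2 + 3 * b - 3 / 2 * w - 6 * (b * s), ?_⟩
  unfold EXI
  rw [hsg]
  have e1 : 0 ≤ (b - u) * s - 5 / 7 * (b - u) := by nlinarith
  refine ⟨h0, ?_, ?_, ?_, ?_, ?_, ?_, ?_, ?_⟩
  · linarith
  · have : 2 * b * (1 - s) = 2 * b - 2 * (b * s) := by ring
    rw [this]
    linarith
  · linarith
  · linarith
  · linarith
  · linarith
  · linarith
  · linarith

end Pool.Agent.NF
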